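import Pool.Agent.Lib.MP_c7af3c_ag.T2C.H95.Lam

/-!
# MP_c7af3c_ag, project T2C, row LIFT: there is at most one line of small variation (tuples)
-/

set_option autoImplicit false

namespace Pool.Agent.T2C.H95

open MvPolynomial Pool.Agent.Gen Pool.Agent.Sharp Pool.Agent.Edge
open Pool.Agent.T2.H95 (exists_fun)
open Pool.Agent.Sharp.H75 (DG)
open Pool.Agent.Edge.H65 (ssub)
open Pool.Agent.Sharp.H54 (lineP_X lineP_C lineP_mul lineP_pow lineP_eval)

section

variable {K : Type} [Field K] {n c : ℕ} {d : Fin c → ℕ}

/-- a line of small variation -/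
def Bad (D : DSys K n c d) (x y : Fin (n + 1) → K) : Prop :=
  ∃ κ : Fin (n + 1) → K, ∀ G : Fin c → MvPolynomial (Fin (n + 1)) K,
    (∀ m, (G m).IsHomogeneous (d m)) → (∀ m, lineP (G m) x y = 0) →
    (fun f => DG D G (x f)) ∈ Submodule.span K {x, κ}

/-- the restriction of a form to a line: the degree is at most the degree of the form -/
theorem lineP_natDegree {G : MvPolynomial (Fin (n + 1)) K} {e : ℕ} (hG : G.IsHomogeneous e)
    (x y : Fin (n + 1) → K) : (lineP G x y).natDegree ≤ e := by
  classical
  have h : lineP G x y = ∑ I ∈ G.support, lineP (monomial I (coeff I G)) x y := by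
    conv_lhs => rw [G.as_sum]
    exact map_sum _ _ _
  rw [h]
  refine Polynomial.natDegree_sum_le_of_forall_le _ _ fun I hI => ?_
  have hd : I.degree = e := by
    have := hG (mem_support_iff.1 hI)
    rw [← this, Finsupp.degree_eq_weight_one]
    rfl
  have h1 : lineP (monomial I (coeff I G)) x y = Polynomial.C (coeff I G) *
      ∏ p, (Polynomial.C (x p) + Polynomial.X * Polynomial.C (y p)) ^ I p := by
    unfold lineP
    rw [aeval_monomial, Finsupp.prod_fintype _ _ (fun i => pow_zero _)]
    rfl
  rw [h1]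
  refine (Polynomial.natDegree_C_mul_le _ _).trans ?_
  refine (Polynomial.natDegree_prod_le _ _).trans ?_
  rw [← hd, Finsupp.degree_eq_sum]
  refine Finset.sum_le_sum fun p _ => ?_
  refine (Polynomial.natDegree_pow_le).trans ?_
  calc I p * (Polynomial.C (x p) + Polynomial.X * Polynomial.C (y p)).natDegree ≤ I p * 1 := by
        refine Nat.mul_le_mul_left _ ?_
        refine (Polynomial.natDegree_add_le _ _).trans (max_le ?_ ?_)
        · rw [Polynomial.natDegree_C]
          exact Nat.zero_le _
        · refine (Polynomial.natDegree_mul_le).trans ?_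
          rw [Polynomial.natDegree_C, Polynomial.natDegree_X]
    _ = I p := mul_one _

/-- splitting along two lines -/
theorem split2 {x y y2 : Fin (n + 1) → K} (hli : LinearIndependent K ![y2, x, y]) {e : ℕ}
    {G : MvPolynomial (Fin (n + 1)) K} (hG : G.IsHomogeneous e) (h0 : eval x G = 0) :
    ∃ G1 : MvPolynomial (Fin (n + 1)) K, G1.IsHomogeneous e ∧ lineP G1 x y = 0 ∧
      lineP (G - G1) x y2 = 0 := by
  classical
  obtain ⟨a, ha⟩ := exists_fun _ hli ![1, 0, 0]
  obtain ⟨b, hb⟩ := exists_fun _ hli ![0, 1, 0]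
  have a0 : H75.dt a y2 = 1 := ha 0
  have a1 : H75.dt a x = 0 := ha 1
  have a2 : H75.dt a y = 0 := ha 2
  have b0 : H75.dt b y2 = 0 := hb 0
  have b1 : H75.dt b x = 1 := hb 1
  set g := lineP G x y2 with hg
  have g0 : g.coeff 0 = 0 := by
    rw [Polynomial.coeff_zero_eq_eval_zero, hg, lineP_eval]
    simpa using h0
  have hgd : g.natDegree ≤ e := lineP_natDegree hG x y2
  refine ⟨∑ j ∈ Finset.range e, C (g.coeff (j + 1)) *
    (H75.lf b ^ (e - 1 - j) * H75.lf a ^ (j + 1)), ?_, ?_, ?_⟩
  · refine IsHomogeneous.sum _ _ _ fun j hj => ?_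
    have hj' := Finset.mem_range.1 hj
    have h1 := (isHomogeneous_C (Fin (n + 1)) (g.coeff (j + 1))).mul
      (((H75.lf_hom b).pow (e - 1 - j)).mul ((H75.lf_hom a).pow (j + 1)))
    have h2 : 0 + (1 * (e - 1 - j) + 1 * (j + 1)) = e := by omega
    rwa [h2] at h1
  · rw [H75.lineP_sum]
    refine Finset.sum_eq_zero fun j _ => ?_
    rw [lineP_mul, lineP_mul, lineP_pow (H75.lf a), H75.lineP_lf, a1, a2]
    simp
  · rw [H75.lineP_sub, H75.lineP_sum, ← hg, sub_eq_zero]
    have h3 : ∀ j, lineP (C (g.coeff (j + 1)) *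
        (H75.lf b ^ (e - 1 - j) * H75.lf a ^ (j + 1))) x y2 =
        Polynomial.C (g.coeff (j + 1)) * Polynomial.X ^ (j + 1) := by
      intro j
      rw [lineP_mul, lineP_mul, lineP_pow, lineP_pow, H75.lineP_lf, H75.lineP_lf, lineP_C, a0, a1,
        b0, b1]
      simp
    simp only [h3]
    conv_lhs => rw [g.as_sum_range_C_mul_X_pow' (n := e + 1) (by omega)]
    rw [Finset.sum_range_succ', g0]
    simp

/-- there is at most one line of small variation -/
theorem bad_uniq (D : DSys K n c d) (hd : ∀ m, 1 ≤ d m) (hn : n = c + 3)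
    {x y y2 : Fin (n + 1) → K} {t0 : Fin (n + 1)} (hx : x t0 = 1)
    (hw : W0 D x) (hb : Bad D x y) (hb2 : Bad D x y2) : ¬ LinearIndependent K ![y2, x, y] := by
  classical
  intro hli
  obtain ⟨κ, hκ⟩ := hb
  obtain ⟨κ2, hκ2⟩ := hb2
  set U : Submodule K (Fin (n + 1) → K) := Submodule.span K (Set.range ![x, κ, κ2]) with hU
  have hxU : x ∈ U := Submodule.subset_span ⟨0, rfl⟩
  have hκU : κ ∈ U := Submodule.subset_span ⟨1, rfl⟩
  have hκ2U : κ2 ∈ U := Submodule.subset_span ⟨2, rfl⟩
  have h1 : Submodule.span K {x, κ} ≤ U := by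
    rw [Submodule.span_le]
    rintro u (rfl | hu)
    · exact hxU
    · rw [Set.mem_singleton_iff.1 hu]
      exact hκU
  have h2 : Submodule.span K {x, κ2} ≤ U := by
    rw [Submodule.span_le]
    rintro u (rfl | hu)
    · exact hxU
    · rw [Set.mem_singleton_iff.1 hu]
      exact hκ2U
  have hV : ∀ G : Fin c → MvPolynomial (Fin (n + 1)) K, (∀ m, (G m).IsHomogeneous (d m)) →
      (∀ m, eval x (G m) = 0) → (fun f => DG D G (x f)) ∈ U := by
    intro G hG h0
    choose G1 hG1 e1 e2 using fun m => split2 hli (hG m) (h0 m)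
    have h3 : (fun f => DG D G (x f)) =
        (fun f => DG D G1 (x f)) + fun f => DG D (G - G1) (x f) := by
      funext f
      rw [Pi.add_apply, H75.DG_sub]
      ring
    rw [h3]
    exact U.add_mem (h1 (hκ _ hG1 e1)) (h2 (hκ2 _ (fun m => (hG m).sub (hG1 m)) e2))
  let f : (Fin (n + 1) → K) →ₗ[K] (Fin c → K) :=
    { toFun := fun u m => ∑ p, u p * eval x (pderiv p (D.F m))
      map_add' := fun u w => by
        funext m
        simp only [Pi.add_apply, add_mul, Finset.sum_add_distrib]
      map_smul' := fun a u => by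
        funext m
        simp only [Pi.smul_apply, smul_eq_mul, RingHom.id_apply, Finset.mul_sum, mul_assoc] }
  have hker : LinearMap.ker f ≤ U := by
    intro u hu
    rw [LinearMap.mem_ker] at hu
    have hu' : ∀ m, ∑ p, u p * eval x (pderiv p (D.F m)) = 0 := fun m => congrFun hu m
    set G : Fin c → MvPolynomial (Fin (n + 1)) K := ∑ p, u p • fun m => X t0 * pderiv p (D.F m)
      with hG
    have hGm : ∀ m, G m = ∑ p, C (u p) * (X t0 * pderiv p (D.F m)) := by
      intro m
      rw [hG, Finset.sum_apply]
      refine Finset.sum_congr rfl fun p _ => ?_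
      rw [Pi.smul_apply, smul_eq_C_mul]
    have hGh : ∀ m, (G m).IsHomogeneous (d m) := by
      intro m
      rw [hGm]
      refine IsHomogeneous.sum _ _ _ fun p _ => ?_
      have h3 := (isHomogeneous_C (Fin (n + 1)) (u p)).mul
        ((isHomogeneous_X K t0).mul ((D.hom m).pderiv (i := p)))
      have h4 : 0 + (1 + (d m - 1)) = d m := by
        have := hd m
        omega
      rwa [h4] at h3
    have hG0 : ∀ m, eval x (G m) = 0 := by
      intro m
      rw [hGm, map_sum, ← hu' m]
      refine Finset.sum_congr rfl fun p _ => ?_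
      rw [map_mul, eval_C, map_mul, eval_X, hx, one_mul]
    have h3 : ∑ p, u p • WT D x p t0 = u + fun f => DG D G (x f) := by
      have h0 : (fun f => DG D G (x f)) = VT D x G := by
        funext f
        rw [dg_eq, VT_apply, Finset.sum_apply]
      rw [h0, hG, map_sum]
      have h4 : ∀ p, u p • WT D x p t0 = u p • Pi.single p (1 : K) +
          VT D x (u p • fun m => X t0 * pderiv p (D.F m)) := by
        intro p
        unfold WT
        rw [hx, one_smul, smul_add, map_smul]
      simp only [h4]
      rw [Finset.sum_add_distrib]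
      congr 1
      funext r
      rw [Finset.sum_apply, Finset.sum_eq_single r]
      · simp
      · intro p _ hp
        simp [Ne.symm hp]
      · intro h
        exact absurd (Finset.mem_univ _) h
    have h4 : ∑ p, u p • WT D x p t0 ∈ U := by
      refine Submodule.sum_mem _ fun p _ => Submodule.smul_mem _ _ ?_
      have h5 : Submodule.span K {x} ≤ U := by
        rw [Submodule.span_singleton_le_iff_mem]
        exact hxU
      exact h5 (hw p t0)
    have h5 : u = (∑ p, u p • WT D x p t0) - fun f => DG D G (x f) := by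
      rw [h3, add_sub_cancel_right]
    rw [h5]
    exact U.sub_mem h4 (hV G hGh hG0)
  have hfU : Module.finrank K U ≤ 3 := by
    have := finrank_range_le_card (R := K) (b := ![x, κ, κ2])
    rwa [Fintype.card_fin] at this
  have h6 := LinearMap.finrank_range_add_finrank_ker f
  have h7 : Module.finrank K (LinearMap.range f) ≤ c := by
    have := Submodule.finrank_le (LinearMap.range f)
    rwa [Module.finrank_fin_fun] at this
  have h8 := Submodule.finrank_mono hker
  rw [Module.finrank_fin_fun] at h6
  omega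

/-- vanishing on a line does not depend on the second point -/
theorem lineP_change [CharZero K] {G : MvPolynomial (Fin (n + 1)) K} {e : ℕ}
    (hG : G.IsHomogeneous e) {x y z : Fin (n + 1) → K} {a b : K} (hy : y = a • x + b • z)
    (h : lineP G x z = 0) : lineP G x y = 0 := by
  rw [Pool.Agent.Lines.H19.lineP_zero_iff hG] at h ⊢
  intro s t
  rw [← h (s + t * a) (t * b), hy]
  congr 2
  funext p
  simp only [Pi.add_apply, Pi.smul_apply, smul_eq_mul]
  ring

end

end Pool.Agent.T2C.H95
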