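import Pool.Agent.Lib.MP_c7af3c_ag.T2C.IfaceB
import Pool.Agent.Lib.MP_c7af3c_ag.T2.H95.Bad

/-!
# MP_c7af3c_ag, project T2C, row LIFT: the variations of tuples over a larger field
-/

set_option autoImplicit false

namespace Pool.Agent.T2C.H95

open MvPolynomial Pool.Agent.Gen Pool.Agent.Sharp Pool.Agent.Edge
open Pool.Agent.T2.H95 (Lam coeff_Lam Lam_add Lam_zero Lam_hom Lam_map_mul Lam_monomial Lam_rename
  Lam_ssub Lam_map eq_zero_of_fun exists_retr li_ext)
open Pool.Agent.T2C.H8 (Fix T3 HomC lift rs RC sm mulC dT PlC)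
open Pool.Agent.Sharp.H75 (dco DG af)
open Pool.Agent.Edge.H65 (ssub)

section ext

variable {Ω K : Type} [Field Ω] [Field K] [Algebra Ω K] {n c : ℕ} {d : Fin c → ℕ}

theorem dg_eq {L : Type} [Field L] (D : DSys L n c d) (G : Fin c → MvPolynomial (Fin (n + 1)) L)
    (u : Fin (n + 1) → L) (p : Fin (n + 1)) : DG D G (u p) = ∑ m, D.V u m (G m) p := by
  rw [← Sharp.H75.VT_apply, Sharp.H75.VT_eq, Finset.sum_apply]

/-- `D'` extends `D` -/
structure ExtC (D : DSys Ω n c d) (D' : DSys K n c d) : Prop where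
  F : ∀ m, D'.F m = map (algebraMap Ω K) (D.F m)
  del : ∀ m I f, D'.del m I (algebraMap Ω K f) = algebraMap Ω K (D.del m I f)

variable {D : DSys Ω n c d} {D' : DSys K n c d} (h : ExtC D D') (u : Fin (n + 1) → Ω)

include h

theorem ExtC.V_mon (m : Fin c) (I : Fin (n + 1) →₀ ℕ) (a : K) (p : Fin (n + 1)) :
    D'.V (fun j => algebraMap Ω K (u j)) m (monomial I a) p =
      a * algebraMap Ω K (D.del m I (u p)) := by
  rw [DSys.V_monomial, h.del]

theorem ExtC.V_map (m : Fin c) (G : MvPolynomial (Fin (n + 1)) Ω) (p : Fin (n + 1)) :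
    D'.V (fun j => algebraMap Ω K (u j)) m (map (algebraMap Ω K) G) p =
      algebraMap Ω K (D.V u m G p) := by
  induction G using MvPolynomial.induction_on' with
  | monomial I a => rw [map_monomial, h.V_mon, DSys.V_monomial, map_mul]
  | add p q hp hq =>
    rw [map_add, map_add, Pi.add_apply, hp, hq, map_add, Pi.add_apply, map_add]

theorem ExtC.V_Lam (l : K →ₗ[Ω] Ω) (m : Fin c) (G : MvPolynomial (Fin (n + 1)) K)
    (p : Fin (n + 1)) :
    l (D'.V (fun j => algebraMap Ω K (u j)) m G p) = D.V u m (Lam l G) p := by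
  induction G using MvPolynomial.induction_on' with
  | monomial I a =>
    rw [h.V_mon, Lam_monomial, DSys.V_monomial, mul_comm, ← Algebra.smul_def, map_smul,
      smul_eq_mul, mul_comm]
  | add p q hp hq =>
    rw [map_add, Pi.add_apply, map_add, hp, hq, Lam_add, map_add, Pi.add_apply]

theorem ExtC.V_sig (s : K ≃ₐ[Ω] K) (m : Fin c) (G : MvPolynomial (Fin (n + 1)) K)
    (p : Fin (n + 1)) :
    s (D'.V (fun j => algebraMap Ω K (u j)) m G p) =
      D'.V (fun j => algebraMap Ω K (u j)) m (map (s : K →+* K) G) p := by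
  induction G using MvPolynomial.induction_on' with
  | monomial I a =>
    rw [map_monomial, h.V_mon, h.V_mon, map_mul, AlgEquiv.commutes]
    rfl
  | add p q hp hq =>
    rw [map_add, Pi.add_apply, map_add, hp, hq, map_add, map_add, Pi.add_apply]

/-- functionals applied to the derivations `D_G` -/
theorem ExtC.dg_Lam (l : K →ₗ[Ω] Ω) (G : Fin c → MvPolynomial (Fin (n + 1)) K) (f : Ω) :
    l (DG D' G (algebraMap Ω K f)) = DG D (fun m => Lam l (G m)) f := by
  rw [dg_eq D' G (fun _ => algebraMap Ω K f) 0, dg_eq D _ (fun _ => f) 0, map_sum]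
  exact Finset.sum_congr rfl fun m _ => h.V_Lam (fun _ => f) l m (G m) 0

theorem ExtC.dg_map (G : Fin c → MvPolynomial (Fin (n + 1)) Ω) (f : Ω) :
    DG D' (fun m => map (algebraMap Ω K) (G m)) (algebraMap Ω K f) =
      algebraMap Ω K (DG D G f) := by
  rw [dg_eq D' _ (fun _ => algebraMap Ω K f) 0, dg_eq D _ (fun _ => f) 0, map_sum]
  exact Finset.sum_congr rfl fun m _ => h.V_map (fun _ => f) m (G m) 0

theorem ExtC.dg_sig (s : K ≃ₐ[Ω] K) (G : Fin c → MvPolynomial (Fin (n + 1)) K) (f : Ω) :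
    s (DG D' G (algebraMap Ω K f)) =
      DG D' (fun m => map (s : K →+* K) (G m)) (algebraMap Ω K f) := by
  rw [dg_eq D' _ (fun _ => algebraMap Ω K f) 0, dg_eq D' _ (fun _ => algebraMap Ω K f) 0, map_sum]
  exact Finset.sum_congr rfl fun m _ => h.V_sig (fun _ => f) s m (G m) 0

/-- `Pl.int` over the larger field -/
theorem ExtC.fix (x : Fin (n + 1) → Ω) (P : Fin 3 → Fin (n + 1) → Ω)
    (G : Fin c → MvPolynomial (Fin (n + 1)) K)
    (hi : ∀ l : K →ₗ[Ω] Ω, Fix D x P fun m => Lam l (G m)) :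
    Fix D' (fun j => algebraMap Ω K (x j)) (fun i f => algebraMap Ω K (P i f)) G := by
  refine ⟨fun f => eq_zero_of_fun Ω fun l => ?_, fun i f => eq_zero_of_fun Ω fun l => ?_⟩
  · rw [h.dg_Lam]
    exact (hi l).1 f
  · rw [h.dg_Lam]
    exact (hi l).2 i f

theorem ExtC.wt (p q : Fin (n + 1)) :
    WT D' (fun j => algebraMap Ω K (u j)) p q = fun f => algebraMap Ω K (WT D u p q f) := by
  classical
  funext f
  unfold WT
  rw [VT_apply, VT_apply, Pi.add_apply, Pi.add_apply, Finset.sum_apply, Finset.sum_apply, map_add,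
    map_sum]
  congr 1
  · rw [Pi.smul_apply, Pi.smul_apply, smul_eq_mul, smul_eq_mul, map_mul]
    congr 1
    by_cases hf : f = p
    · subst hf
      rw [Pi.single_eq_same, Pi.single_eq_same, map_one]
    · rw [Pi.single_eq_of_ne hf, Pi.single_eq_of_ne hf, map_zero]
  · refine Finset.sum_congr rfl fun m _ => ?_
    rw [← h.V_map, h.F, pderiv_map]
    rw [map_mul (map (algebraMap Ω K)), map_X]

/-- `W0` over the larger field -/
theorem ExtC.w0 (hw : W0 D u) : W0 D' fun j => algebraMap Ω K (u j) := by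
  intro p q
  obtain ⟨c, hc⟩ := Submodule.mem_span_singleton.1 (hw p q)
  rw [Submodule.mem_span_singleton]
  refine ⟨algebraMap Ω K c, ?_⟩
  rw [h.wt]
  funext f
  rw [← hc, Pi.smul_apply, Pi.smul_apply, smul_eq_mul, smul_eq_mul, map_mul]

end ext

/-- restriction to a plane and extension of scalars -/
theorem ssub_map {Ω K : Type} [Field Ω] [Field K] (φ : Ω →+* K) {n : ℕ}
    (P : Fin 3 → Fin (n + 1) → Ω) (G : MvPolynomial (Fin (n + 1)) Ω) :
    ssub (fun i f => φ (P i f)) (map φ G) = map φ (ssub P G) := by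
  unfold ssub
  induction G using MvPolynomial.induction_on with
  | C a => rw [map_C, algHom_C, algHom_C, MvPolynomial.algebraMap_eq, MvPolynomial.algebraMap_eq,
      map_C]
  | add F G hF hG => rw [map_add, map_add, hF, hG, map_add, map_add]
  | mul_X F j hF =>
    rw [map_mul, map_mul, hF, map_X, aeval_X, map_mul, map_mul, aeval_X, map_sum]
    congr 1
    refine Finset.sum_congr rfl fun i _ => ?_
    rw [map_mul, map_C, map_X]

end Pool.Agent.T2C.H95
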